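import Pool.Agent.Lib.MP_9441bf_co.Lower
import Pool.Agent.Lib.MP_9441bf_co.Upper

/-!
The exact value of `k(n)`: the greatest number of arbitrary cells that can be deleted from a
Cayley table of an abelian group of order `n` so that the isomorphism type is still determined.
-/

namespace Pool.Agent.Results.MP_9441bf_co.ExactValue

/-- `A` is a Cayley table of the group `H`: there are bijections `α, β, γ : [n] → H` with
`γ (A i j) = α i * β j`. -/
def IsCayleyTable {n : ℕ} (H : Type) [Group H] (A : Fin n → Fin n → Fin n) : Prop :=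
  ∃ α β γ : Fin n ≃ H, ∀ i j, γ (A i j) = α i * β j

/-- `A` with the cells of `S` deleted determines `G`: every Cayley table of an abelian group
`G'` of order `n` that agrees with `A` outside `S` has `G' ≅ G`. -/
def Determines {n : ℕ} (G : Type) [CommGroup G] (A : Fin n → Fin n → Fin n)
    (S : Finset (Fin n × Fin n)) : Prop :=
  ∀ (G' : Type) [CommGroup G'], Nat.card G' = n →
    ∀ A' : Fin n → Fin n → Fin n, IsCayleyTable G' A' →
      (∀ i j, (i, j) ∉ S → A' i j = A i j) → Nonempty (G' ≃* G)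

/-- For every abelian group `G` of order `n`, every Cayley table `A` of `G` and every set `S` of
`k` cells, `A` with the cells of `S` deleted determines `G`. -/
def AlwaysDetermines (n k : ℕ) : Prop :=
  ∀ (G : Type) [CommGroup G], Nat.card G = n →
    ∀ A : Fin n → Fin n → Fin n, IsCayleyTable G A →
      ∀ S : Finset (Fin n × Fin n), S.card = k → Determines G A S

open Pool.Agent.Lib.MP_9441bf_co in
theorem result (n : ℕ) (hn : 1 ≤ n) :
    IsGreatest {k : ℕ | k ≤ n ^ 2 ∧ AlwaysDetermines n k}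
      (if Squarefree n then n ^ 2
        else sInf {d : ℕ | ∃ p : ℕ, p.Prime ∧ p ^ 2 ∣ n ∧ d = (n / p) ^ 2 * (p ^ 2 / 4)} - 1) := by
  split_ifs with hsq
  · refine ⟨⟨le_rfl, ?_⟩, fun k hk => hk.1⟩
    rintro G _ - A ⟨α, β, γ, hA⟩ S - G' _ - A' ⟨α', β', γ', hA'⟩ hS
    by_contra hne
    obtain ⟨p, pp, pn, -⟩ := lower hn α β γ α' β' γ' A A' hA hA' hne S hS
    exact (Nat.squarefree_iff_prime_squarefree.1 hsq) p pp (by rwa [sq] at pn)
  · set M := {d : ℕ | ∃ p : ℕ, p.Prime ∧ p ^ 2 ∣ n ∧ d = (n / p) ^ 2 * (p ^ 2 / 4)} with hM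
    have hne : M.Nonempty := by
      rw [Nat.squarefree_iff_prime_squarefree] at hsq
      push Not at hsq
      obtain ⟨p, pp, pn⟩ := hsq
      exact ⟨_, p, pp, by rwa [sq], rfl⟩
    obtain ⟨p, pp, pn, hp⟩ := Nat.sInf_mem hne
    have hpn : p ∣ n := (dvd_pow_self p two_ne_zero).trans pn
    have h1 : 1 ≤ sInf M := by
      rw [hp]
      have a1 : 1 ≤ n / p := Nat.div_pos (Nat.le_of_dvd hn hpn) pp.pos
      have a2 : 1 ≤ p ^ 2 / 4 := by
        refine Nat.div_pos ?_ (by norm_num)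
        have := pp.two_le
        nlinarith
      exact Nat.mul_pos (Nat.pow_pos a1) a2
    have h2 : sInf M ≤ n ^ 2 := by
      rw [hp]
      calc (n / p) ^ 2 * (p ^ 2 / 4) ≤ (n / p) ^ 2 * p ^ 2 :=
            Nat.mul_le_mul_left _ (Nat.div_le_self _ _)
        _ = n ^ 2 := by rw [← mul_pow, Nat.div_mul_cancel hpn]
    refine ⟨⟨by omega, ?_⟩, ?_⟩
    · rintro G _ - A ⟨α, β, γ, hA⟩ S hk G' _ - A' ⟨α', β', γ', hA'⟩ hS
      by_contra hno
      obtain ⟨q, qp, qn, hq⟩ := lower hn α β γ α' β' γ' A A' hA hA' hno S hS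
      have : sInf M ≤ (n / q) ^ 2 * (q ^ 2 / 4) := Nat.sInf_le ⟨q, qp, qn, rfl⟩
      omega
    · rintro k ⟨hk, hgood⟩
      by_contra hlt
      obtain ⟨α, β, γ, α', β', γ', A, A', S, hA, hA', hS, hag, hno⟩ := upper n p hn pp pn
      obtain ⟨S', s1, -, s3⟩ := Finset.exists_subsuperset_card_eq (n := k) (Finset.subset_univ S)
        (by omega) (by simpa [sq] using hk)
      refine hno (hgood _ ?_ A ⟨α, β, γ, hA⟩ S' s3 _ ?_ A' ⟨α', β', γ', hA'⟩
        (fun i j h => hag i j (fun hh => h (s1 hh))))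
      · rw [← Nat.card_congr α]; simp
      · rw [← Nat.card_congr α']; simp

end Pool.Agent.Results.MP_9441bf_co.ExactValue
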